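import Pool.Agent.H754Z.TA.Str

set_option autoImplicit false

namespace Pool.Agent.H754Z.TA

open MeasureTheory Filter Topology Pointwise

universe u v

namespace P9

/-- A convex cone of a finite dimensional space whose dual cone is trivial is everything. -/
theorem cone_top {d : ℕ} (C : Set (Fin d → ℝ)) (h0 : (0 : Fin d → ℝ) ∈ C)
    (hadd : ∀ x ∈ C, ∀ y ∈ C, x + y ∈ C) (hsm : ∀ (c : ℝ), 0 ≤ c → ∀ x ∈ C, c • x ∈ C)
    (hdual : ∀ f : (Fin d → ℝ) →ₗ[ℝ] ℝ, (∀ x ∈ C, 0 ≤ f x) → f = 0) (x : Fin d → ℝ) : x ∈ C := by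
  have hconv : Convex ℝ C := by
    intro a ha b hb s t hs ht _
    exact hadd _ (hsm s hs a ha) _ (hsm t ht b hb)
  have hspan : Submodule.span ℝ C = ⊤ := by
    by_contra hne
    obtain ⟨f, hf0, hf⟩ := Submodule.exists_le_ker_of_lt_top _ (lt_top_iff_ne_top.2 hne)
    apply hf0
    apply hdual
    intro y hy
    have : f y = 0 := hf (Submodule.subset_span hy)
    rw [this]
  have haff : affineSpan ℝ C = ⊤ := by
    have h1 := affineSpan_insert_zero (k := ℝ) C
    rw [Set.insert_eq_of_mem h0, hspan] at h1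
    apply AffineSubspace.coe_injective
    rw [h1]
    simp
  have hint : (interior C).Nonempty := hconv.interior_nonempty_iff_affineSpan_eq_top.2 haff
  by_contra hx
  obtain ⟨f, hf0, hf⟩ := geometric_hahn_banach_of_nonempty_interior_point (x := x) hconv
    (fun h => hx (interior_subset h)) hint
  apply hf0
  have hneg : ∀ y ∈ C, f y ≤ 0 := by
    intro y hy
    by_contra hpos
    push Not at hpos
    have h1 := hf _ (hsm ((|f x| + 1) / f y) (by positivity) y hy)
    rw [map_smul, smul_eq_mul, div_mul_cancel₀ _ hpos.ne'] at h1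
    have := le_abs_self (f x)
    linarith
  have h2 := hdual (-(f : (Fin d → ℝ) →ₗ[ℝ] ℝ)) (fun y hy => by
    have := hneg y hy
    simp only [LinearMap.neg_apply, ContinuousLinearMap.coe_coe]
    linarith)
  ext y
  have := LinearMap.congr_fun h2 y
  simpa using this

end P9

theorem cone_all {ι : Type u} (V : Submodule ℝ (ι → ℝ)) [FiniteDimensional ℝ V]
    (hsc : ∀ (i : ι) (c : ℝ), 0 ≤ c → ∃ j, ∀ v ∈ V, v j = c * v i)
    (hpos : ∀ v ∈ V, (∀ i, 0 ≤ v i) → v = 0) (l₀ : List ι) :
    ∃ l : List ι, ∀ v ∈ V, ((l₀ ++ l).map v).sum = 0 := by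
  classical
  let b := Module.finBasis ℝ V
  let e : List ι → (Fin (Module.finrank ℝ V) → ℝ) := fun l k => (l.map (b k : ι → ℝ)).sum
  let C : Set (Fin (Module.finrank ℝ V) → ℝ) := Set.range e
  have happ : ∀ l l', e (l ++ l') = e l + e l' := by
    intro l l'
    funext k
    simp [e]
  have hall : ∀ x, x ∈ C := by
    apply P9.cone_top C
    · exact ⟨[], by funext k; simp [e]⟩
    · rintro _ ⟨l, rfl⟩ _ ⟨l', rfl⟩
      exact ⟨l ++ l', happ l l'⟩
    · rintro c hc _ ⟨l, rfl⟩
      choose J hJ using fun i => hsc i c hc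
      refine ⟨l.map J, ?_⟩
      funext k
      simp only [e, List.map_map, Pi.smul_apply, smul_eq_mul]
      rw [← List.sum_map_mul_left]
      congr 1
      apply List.map_congr_left
      intro i _
      exact hJ i _ (b k).2
    · intro f hf
      let w : V := ∑ k, f (Pi.single k 1) • b k
      have hw : ∀ i, (w : ι → ℝ) i = f (e [i]) := by
        intro i
        rw [LinearMap.pi_apply_eq_sum_univ f (e [i])]
        simp only [w, e, Submodule.coe_sum, Submodule.coe_smul, Finset.sum_apply, Pi.smul_apply,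
          smul_eq_mul, List.map_cons, List.map_nil, List.sum_cons, List.sum_nil, add_zero]
        refine Finset.sum_congr rfl fun k _ => ?_
        rw [mul_comm]
        congr 2
        funext j
        simp [Pi.single_apply, eq_comm]
      have hw0 : (w : ι → ℝ) = 0 := hpos _ w.2 fun i => by
        rw [hw]; exact hf _ ⟨[i], rfl⟩
      have hw1 : w = 0 := Subtype.ext hw0
      have hc := Fintype.linearIndependent_iff.1 b.linearIndependent (fun k => f (Pi.single k 1)) hw1
      apply LinearMap.pi_ext'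
      intro k
      ext
      simpa using hc k
  obtain ⟨l, hl⟩ := hall (-e l₀)
  refine ⟨l, fun v hv => ?_⟩
  have h0 : e (l₀ ++ l) = 0 := by rw [happ, hl]; simp
  have hv' : v = ∑ k, (b.repr ⟨v, hv⟩ k) • (b k : ι → ℝ) := by
    have := congrArg Subtype.val (b.sum_repr ⟨v, hv⟩)
    rw [Submodule.coe_sum] at this
    exact this.symm
  have key : ∀ l : List ι, (l.map v).sum = ∑ k, (b.repr ⟨v, hv⟩ k) * e l k := by
    intro l
    induction l with
    | nil => simp [e]
    | cons i l ih =>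
      have hi : v i = ∑ k, (b.repr ⟨v, hv⟩ k) * (b k : ι → ℝ) i := by
        conv_lhs => rw [hv']
        simp
      simp only [List.map_cons, List.sum_cons, ih, e, mul_add, Finset.sum_add_distrib, hi]
  rw [key, h0]
  simp

theorem extend_char {X : Type u} (A : NonUnitalSubalgebra ℂ (X → ℂ))
    (hb : ∀ u ∈ A, ∃ M, ∀ x, ‖u x‖ ≤ M) (F : Set (X → ℂ)) (hF : ∀ u ∈ F, u ∈ A)
    (χ : (X → ℂ) → ℂ)
    (hprop : ∀ (n : ℕ) (c : Fin n → ℂ) (b u : Fin n → X → ℂ), (∀ j, b j ∈ A) → (∀ j, u j ∈ F) →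
      ¬ ∀ x, ‖1 - ∑ j, (c j + b j x) * (u j x - χ (u j))‖ ≤ 1 / 2) :
    ∃ ω : A →ₙₐ[ℂ] ℂ, ∀ (u : X → ℂ) (hu : u ∈ F), ω ⟨u, hF u hu⟩ = χ u := by
  classical
  let _ : TopologicalSpace X := ⊥
  have _ : DiscreteTopology X := ⟨rfl⟩
  choose M hM using hb
  let Φ : A →ₙₐ[ℂ] (BoundedContinuousFunction X ℂ) :=
    { toFun := fun a => BoundedContinuousFunction.ofNormedAddCommGroupDiscrete a.1 (M a.1 a.2)
        (hM a.1 a.2)
      map_smul' := fun c a => by ext x; rfl
      map_zero' := by ext x; rfl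
      map_add' := fun a b => by ext x; rfl
      map_mul' := fun a b => by ext x; rfl }
  have hΦ : ∀ (a : A) x, Φ a x = a.1 x := fun a x => rfl
  let D0 : Subalgebra ℂ (BoundedContinuousFunction X ℂ) :=
    { carrier := {f | ∃ (c : ℂ) (a : A), ∀ x, f x = c + a.1 x}
      mul_mem' := by
        rintro f g ⟨c, a, ha⟩ ⟨c', a', ha'⟩
        refine ⟨c * c', c • a' + c' • a + a * a', fun x => ?_⟩
        simp only [BoundedContinuousFunction.mul_apply, ha, ha']
        change _ = c * c' + (c * a'.1 x + c' * a.1 x + a.1 x * a'.1 x)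
        ring
      add_mem' := by
        rintro f g ⟨c, a, ha⟩ ⟨c', a', ha'⟩
        refine ⟨c + c', a + a', fun x => ?_⟩
        simp only [BoundedContinuousFunction.add_apply, ha, ha']
        change _ = c + c' + (a.1 x + a'.1 x)
        ring
      algebraMap_mem' := fun c => ⟨c, 0, fun x => by
        simp [BoundedContinuousFunction.algebraMap_apply]⟩ }
  let D := D0.topologicalClosure
  have _ : CompleteSpace D := D0.isClosed_topologicalClosure.completeSpace_coe
  have hmem : ∀ a : A, Φ a ∈ D := fun a =>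
    D0.le_topologicalClosure ⟨0, a, fun x => by simp [hΦ]⟩
  let Ψ : A →ₙₐ[ℂ] D :=
    { toFun := fun a => ⟨Φ a, hmem a⟩
      map_smul' := fun c a => Subtype.ext (map_smul Φ c a)
      map_zero' := Subtype.ext (map_zero Φ)
      map_add' := fun a b => Subtype.ext (map_add Φ a b)
      map_mul' := fun a b => Subtype.ext (map_mul Φ a b) }
  let g : F → D := fun u => Ψ ⟨u.1, hF u.1 u.2⟩ - algebraMap ℂ D (χ u.1)
  have hg : ∀ (u : F) x, (g u).1 x = u.1 x - χ u.1 := by
    intro u x
    simp [g, Ψ, hΦ, BoundedContinuousFunction.algebraMap_apply]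
  have hne : Ideal.span (Set.range g) ≠ ⊤ := by
    intro htop
    have h1 : (1 : D) ∈ Ideal.span (Set.range g) := by rw [htop]; trivial
    obtain ⟨n, d, w, hw⟩ := Submodule.mem_span_set'.1 h1
    choose u hu using fun j => (w j).2
    let S : ℝ := ∑ j, ‖(g (u j)).1‖
    have hS : 0 ≤ S := Finset.sum_nonneg fun _ _ => norm_nonneg _
    have hδ : 0 < 1 / (2 * (S + 1)) := by positivity
    have happ : ∀ j, ∃ (c : ℂ) (a : A), ∀ x, ‖(d j).1 x - (c + a.1 x)‖ ≤ 1 / (2 * (S + 1)) := by
      intro j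
      have hd : (d j).1 ∈ closure (D0 : Set (BoundedContinuousFunction X ℂ)) := (d j).2
      obtain ⟨f, ⟨c, a, hf⟩, hdist⟩ := Metric.mem_closure_iff.1 hd _ hδ
      refine ⟨c, a, fun x => ?_⟩
      rw [← hf x, ← dist_eq_norm]
      exact (BoundedContinuousFunction.dist_coe_le_dist x).trans hdist.le
    choose c a hca using happ
    apply hprop n c (fun j => (a j).1) (fun j => (u j).1) (fun j => (a j).2) (fun j => (u j).2)
    intro x
    have h2 : (1 : ℂ) = ∑ j, (d j).1 x * (g (u j)).1 x := by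
      have h3 := congrArg (fun z : D => z.1 x) hw
      simp only [smul_eq_mul] at h3
      have h4 : ((∑ j, d j * (w j).1 : D) : BoundedContinuousFunction X ℂ) x
          = ∑ j, (d j).1 x * (g (u j)).1 x := by
        rw [AddSubmonoidClass.coe_finsetSum, BoundedContinuousFunction.sum_apply]
        refine Finset.sum_congr rfl fun j _ => ?_
        rw [hu j]
        rfl
      rw [← h4, h3]
      rfl
    have h5 : (1 : ℂ) - ∑ j, (c j + (a j).1 x) * ((u j).1 x - χ (u j).1)
        = ∑ j, ((d j).1 x - (c j + (a j).1 x)) * (g (u j)).1 x := by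
      conv_lhs => rw [h2]
      rw [← Finset.sum_sub_distrib]
      refine Finset.sum_congr rfl fun j _ => ?_
      rw [hg]
      ring
    rw [h5]
    calc _ ≤ ∑ j, ‖((d j).1 x - (c j + (a j).1 x)) * (g (u j)).1 x‖ := norm_sum_le _ _
      _ ≤ ∑ j, 1 / (2 * (S + 1)) * ‖(g (u j)).1‖ := by
        refine Finset.sum_le_sum fun j _ => ?_
        rw [norm_mul]
        exact mul_le_mul (hca j x) (BoundedContinuousFunction.norm_coe_le_norm _ x)
          (norm_nonneg _) hδ.le
      _ = 1 / (2 * (S + 1)) * S := by rw [← Finset.mul_sum]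
      _ ≤ 1 / 2 := by
        rw [div_mul_eq_mul_div, div_le_div_iff₀ (by positivity) (by positivity)]
        linarith
  obtain ⟨I, hI, hle⟩ := Ideal.exists_le_maximal _ hne
  let φ : D →ₐ[ℂ] ℂ := WeakDual.CharacterSpace.toAlgHom I.toCharacterSpace
  refine ⟨(φ : D →ₙₐ[ℂ] ℂ).comp Ψ, fun u hu => ?_⟩
  have h6 : I.toCharacterSpace (g ⟨u, hu⟩) = 0 :=
    I.toCharacterSpace_apply_eq_zero_of_mem (hle (Ideal.subset_span ⟨⟨u, hu⟩, rfl⟩))
  have h7 : φ (g ⟨u, hu⟩) = 0 := h6
  simp only [g, map_sub, AlgHom.commutes] at h7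
  have h8 : φ (Ψ ⟨u, hF u hu⟩) = χ u := by simpa [sub_eq_zero] using h7
  exact h8

end Pool.Agent.H754Z.TA
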